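import Pool.Agent.Y16.AF.StmA

/-!
# The energies of the momenta

Elementary estimates for `en k = 2 arsinh (√(wh2 k) / 2)`.
-/

namespace Pool.Agent.Y901.AF

open Pool.Agent.Y16.AF

noncomputable section

/-- The cosine of the angle depends only on the representative of smallest absolute value. -/
lemma cos_ang {L : ℕ} [NeZero L] (k : Sp L) (j : Fin 3) :
    Real.cos (ang k j) = Real.cos (2 * Real.pi / L * (((k j).valMinAbs : ℤ) : ℝ)) := by
  have hL : (L : ℝ) ≠ 0 := by exact_mod_cast NeZero.ne L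
  unfold ang
  rw [ZMod.valMinAbs_def_pos]
  split_ifs with h
  · congr 1
    push_cast
    ring
  · have : 2 * Real.pi / L * ((((k j).val : ℤ) - (L : ℤ) : ℤ) : ℝ) =
        2 * Real.pi * ((k j).val : ℝ) / L - 2 * Real.pi := by
      push_cast
      field_simp
    rw [this, Real.cos_sub_two_pi]

/-- The argument of the cosine is at most `π` in absolute value. -/
lemma abs_arg_le {L : ℕ} [NeZero L] (x : ZMod L) :
    |2 * Real.pi / L * ((x.valMinAbs : ℤ) : ℝ)| ≤ Real.pi := by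
  have hL : (0 : ℝ) < L := by exact_mod_cast Nat.pos_of_ne_zero (NeZero.ne L)
  have hm := ZMod.valMinAbs_mem_Ioc x
  have h1 : (-(L : ℤ)) ≤ x.valMinAbs * 2 := hm.1.le
  have h2 : x.valMinAbs * 2 ≤ (L : ℤ) := hm.2
  have h1' : -(L : ℝ) ≤ ((x.valMinAbs : ℤ) : ℝ) * 2 := by exact_mod_cast h1
  have h2' : ((x.valMinAbs : ℤ) : ℝ) * 2 ≤ (L : ℝ) := by exact_mod_cast h2
  have h3 : |((x.valMinAbs : ℤ) : ℝ)| ≤ L / 2 := by
    rw [abs_le]
    constructor <;> linarith
  have hp : 0 < 2 * Real.pi / L := by positivity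
  rw [abs_mul, abs_of_pos hp]
  calc 2 * Real.pi / L * |((x.valMinAbs : ℤ) : ℝ)| ≤ 2 * Real.pi / L * (L / 2) := by gcongr
    _ = Real.pi := by field_simp

/-- The quartic bound. -/
lemma cos_quartic (y : ℝ) : y ^ 2 - (2 - 2 * Real.cos y) ≤ y ^ 4 := by
  by_cases hy : |y| ≤ 1
  · have h := Real.cos_bound hy
    have h2 := (abs_le.mp h).2
    have h3 : |y| ^ 4 = y ^ 4 := by
      rw [show (4 : ℕ) = 2 * 2 by norm_num, pow_mul, sq_abs, ← pow_mul]
    rw [h3] at h2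
    have h4 : 0 ≤ y ^ 4 := by positivity
    nlinarith
  · have hy1 : 1 < |y| := not_le.mp hy
    have hy2 : 1 ≤ y ^ 2 := by
      rw [← sq_abs]
      nlinarith
    have hc := Real.cos_le_one y
    nlinarith

lemma two_sub_le (y : ℝ) : 2 - 2 * Real.cos y ≤ y ^ 2 := by
  have := Real.one_sub_sq_div_two_le_cos (x := y)
  linarith

lemma le_two_sub (y : ℝ) (hy : |y| ≤ Real.pi) :
    4 / Real.pi ^ 2 * y ^ 2 ≤ 2 - 2 * Real.cos y := by
  have := Real.cos_le_one_sub_mul_cos_sq hy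
  have h2 : 4 / Real.pi ^ 2 * y ^ 2 = 2 * (2 / Real.pi ^ 2 * y ^ 2) := by ring
  rw [h2]
  linarith

/-- The exponential bound. -/
lemma exp_quad {u : ℝ} (h0 : 0 ≤ u) (h1 : u ≤ 9 / 2) :
    Real.exp u - 1 - u ≤ Real.exp (9 / 2) * u ^ 2 := by
  have he : 1 ≤ Real.exp (9 / 2) := Real.one_le_exp (by norm_num)
  by_cases hu : u ≤ 1
  · have h := Real.norm_exp_sub_one_sub_id_le (x := u) (by
      rw [Real.norm_eq_abs, abs_of_nonneg h0]; exact hu)
    rw [Real.norm_eq_abs, Real.norm_eq_abs, abs_of_nonneg h0] at h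
    have h2 := (abs_le.mp h).2
    nlinarith [sq_nonneg u]
  · have hu1 : 1 < u := not_le.mp hu
    have h3 : Real.exp u ≤ Real.exp (9 / 2) := Real.exp_le_exp.mpr h1
    have h4 : 1 ≤ u ^ 2 := by nlinarith
    nlinarith

/-- The constant of the quartic bound for the hyperbolic cosine. -/
def K1 : ℝ := Real.exp (9 / 2) / 2

lemma K1_pos : 0 < K1 := by unfold K1; positivity

lemma cosh_lower {E : ℝ} (hE : 0 ≤ E) : E ^ 2 ≤ 2 * Real.cosh E - 2 := by
  have h1 : Real.cosh E = 2 * Real.sinh (E / 2) ^ 2 + 1 := by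
    have := Real.cosh_two_mul (E / 2)
    rw [show 2 * (E / 2) = E by ring] at this
    rw [this, Real.cosh_sq]
    ring
  have h2 : E / 2 ≤ Real.sinh (E / 2) := Real.self_le_sinh_iff.mpr (by linarith)
  rw [h1]
  nlinarith

lemma cosh_upper {E : ℝ} (hE : 0 ≤ E) (hE3 : E ≤ 3) :
    2 * Real.cosh E - 2 ≤ E ^ 2 + K1 * E ^ 4 := by
  have h1 := Real.cosh_le_exp_half_sq E
  have h2 : Real.exp (E ^ 2 / 2) - 1 - E ^ 2 / 2 ≤ Real.exp (9 / 2) * (E ^ 2 / 2) ^ 2 :=
    exp_quad (by positivity) (by nlinarith)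
  unfold K1
  nlinarith

/-- The relation between the energy and the momentum, and the bounds for the energy. -/
lemma energy_facts {w E : ℝ} (hw0 : 0 < w) (hw : w ≤ 12) (hE : E = 2 * Real.arsinh (Real.sqrt w / 2)) :
    0 < E ∧ 2 * Real.cosh E - 2 = w ∧ E ≤ 3 := by
  have hs : 0 < Real.sqrt w := Real.sqrt_pos.mpr hw0
  have hE0 : 0 < E := by
    rw [hE]
    have := Real.arsinh_pos_iff.mpr (show 0 < Real.sqrt w / 2 by positivity)
    linarith
  have hcosh : 2 * Real.cosh E - 2 = w := by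
    have h1 : Real.cosh E = 2 * Real.sinh (E / 2) ^ 2 + 1 := by
      have := Real.cosh_two_mul (E / 2)
      rw [show 2 * (E / 2) = E by ring] at this
      rw [this, Real.cosh_sq]
      ring
    have h2 : Real.sinh (E / 2) = Real.sqrt w / 2 := by
      rw [hE, show 2 * Real.arsinh (Real.sqrt w / 2) / 2 = Real.arsinh (Real.sqrt w / 2) by ring,
        Real.sinh_arsinh]
    rw [h1, h2]
    have h3 : Real.sqrt w ^ 2 = w := Real.sq_sqrt hw0.le
    nlinarith
  refine ⟨hE0, hcosh, ?_⟩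
  by_contra hcon
  have hE3 : 3 < E := not_le.mp hcon
  have h1 : Real.exp E / 2 ≤ Real.cosh E := by
    rw [Real.cosh_eq]
    have := Real.exp_pos (-E)
    linarith
  have h2 : Real.exp 3 < Real.exp E := Real.exp_lt_exp.mpr hE3
  have h3 : (2.7 : ℝ) ^ 3 ≤ Real.exp 3 := by
    have h4 : (2.7 : ℝ) ≤ Real.exp 1 := by
      have := Real.exp_one_gt_d9
      linarith
    calc (2.7 : ℝ) ^ 3 ≤ (Real.exp 1) ^ 3 := by gcongr
      _ = Real.exp 3 := by rw [← Real.exp_nat_mul]; norm_num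
  norm_num at h3
  linarith

/-- The lower bound for the energy. -/
lemma low_bound {w E L : ℝ} (hL : 2 ≤ L) (hE0 : 0 < E) (hcosh : 2 * Real.cosh E - 2 = w)
    (hw : 16 / L ^ 2 ≤ w) : 1 ≤ E * L := by
  by_contra hcon
  have h1 : E * L < 1 := not_le.mp hcon
  have hL0 : 0 < L := by linarith
  have h2 : (E * L) ^ 2 < 1 := by
    have : 0 < E * L := by positivity
    nlinarith
  have hE1 : E < 1 / 2 := by nlinarith
  obtain ⟨u, hu⟩ : ∃ u, u = E ^ 2 / 2 := ⟨_, rfl⟩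
  have hu0 : 0 ≤ u := by rw [hu]; positivity
  have hu1 : u ≤ 1 := by rw [hu]; nlinarith
  have h3 := Real.cosh_le_exp_half_sq E
  rw [← hu] at h3
  have h4 := Real.norm_exp_sub_one_sub_id_le (x := u) (by
    rw [Real.norm_eq_abs, abs_of_nonneg hu0]; exact hu1)
  rw [Real.norm_eq_abs, Real.norm_eq_abs, abs_of_nonneg hu0] at h4
  have h5 := (abs_le.mp h4).2
  have h5' : u ^ 2 ≤ u := by nlinarith
  have h6 : w ≤ 2 * E ^ 2 := by
    have : 2 * E ^ 2 = 4 * u := by rw [hu]; ring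
    rw [← hcosh, this]
    linarith
  have h7 : 16 ≤ w * L ^ 2 := by
    rw [div_le_iff₀ (by positivity)] at hw
    exact hw
  have h8 : w * L ^ 2 ≤ 2 * E ^ 2 * L ^ 2 := by gcongr
  have h9 : 2 * E ^ 2 * L ^ 2 = 2 * (E * L) ^ 2 := by ring
  linarith

/-- The energies. -/
theorem af_en : S_EN := by
  set M : ℝ := 1 + 9 * K1 with hM
  have hM1 : 1 ≤ M := by have := K1_pos; linarith
  have hM0 : 0 < M := by linarith
  have hpi := Real.pi_pos
  refine ⟨16 / M, K1 + (Real.pi ^ 2 / 4 * M) ^ 2, by positivity, by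
    have := K1_pos; positivity, ?_⟩
  intro L _ hL2 k hk
  have hL0 : (0 : ℝ) < L := by positivity
  have hLr : (2 : ℝ) ≤ L := by exact_mod_cast hL2
  set S : ℝ := ∑ j, (((k j).valMinAbs : ℤ) : ℝ) ^ 2 with hS
  set w : ℝ := wh2 k with hw
  set E : ℝ := en k with hE
  -- the sum of squares is at least one
  have hS1 : 1 ≤ S := by
    obtain ⟨j, hj⟩ : ∃ j, k j ≠ 0 := by
      by_contra hcon
      push Not at hcon
      exact hk (funext hcon)
    have hn : (k j).valMinAbs ≠ 0 := fun h => hj ((ZMod.valMinAbs_eq_zero _).mp h)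
    have h1 : (1 : ℤ) ≤ (k j).valMinAbs ^ 2 := by
      have : 0 < (k j).valMinAbs ^ 2 := by positivity
      omega
    have h2 : (1 : ℝ) ≤ (((k j).valMinAbs : ℤ) : ℝ) ^ 2 := by exact_mod_cast h1
    exact h2.trans (Finset.single_le_sum
      (f := fun j => (((k j).valMinAbs : ℤ) : ℝ) ^ 2) (fun i _ => sq_nonneg _)
      (Finset.mem_univ j))
  -- the momentum
  set κ2 : ℝ := (2 * Real.pi / L) ^ 2 * S with hκ2
  have hsum : κ2 = ∑ j, (2 * Real.pi / L * (((k j).valMinAbs : ℤ) : ℝ)) ^ 2 := by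
    rw [hκ2, hS, Finset.mul_sum]
    refine Finset.sum_congr rfl fun j _ => ?_
    ring
  have hwsum : w = ∑ j, (2 - 2 * Real.cos (2 * Real.pi / L * (((k j).valMinAbs : ℤ) : ℝ))) := by
    rw [hw]
    unfold wh2
    refine Finset.sum_congr rfl fun j _ => ?_
    rw [cos_ang]
  have hw_le : w ≤ κ2 := by
    rw [hwsum, hsum]
    exact Finset.sum_le_sum fun j _ => two_sub_le _
  have hw_ge : 4 / Real.pi ^ 2 * κ2 ≤ w := by
    rw [hwsum, hsum, Finset.mul_sum]
    exact Finset.sum_le_sum fun j _ => le_two_sub _ (abs_arg_le _)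
  have hw_quart : κ2 - w ≤ κ2 ^ 2 := by
    rw [hwsum, hsum, ← Finset.sum_sub_distrib]
    calc ∑ j, ((2 * Real.pi / L * (((k j).valMinAbs : ℤ) : ℝ)) ^ 2 -
          (2 - 2 * Real.cos (2 * Real.pi / L * (((k j).valMinAbs : ℤ) : ℝ))))
        ≤ ∑ j, (2 * Real.pi / L * (((k j).valMinAbs : ℤ) : ℝ)) ^ 4 :=
          Finset.sum_le_sum fun j _ => cos_quartic _
      _ = ∑ j, ((2 * Real.pi / L * (((k j).valMinAbs : ℤ) : ℝ)) ^ 2) ^ 2 :=
          Finset.sum_congr rfl fun j _ => by ring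
      _ ≤ (∑ j, (2 * Real.pi / L * (((k j).valMinAbs : ℤ) : ℝ)) ^ 2) ^ 2 :=
          Finset.sum_sq_le_sq_sum_of_nonneg fun j _ => sq_nonneg _
  have hκ16 : 4 / Real.pi ^ 2 * κ2 = 16 * S / L ^ 2 := by
    rw [hκ2]
    field_simp
    ring
  have hw16 : 16 * S / L ^ 2 ≤ w := hκ16 ▸ hw_ge
  have hw16' : 16 / (L : ℝ) ^ 2 ≤ w := by
    refine le_trans ?_ hw16
    gcongr
    linarith
  have hw0 : 0 < w := lt_of_lt_of_le (by positivity) hw16'
  have hw12 : w ≤ 12 := by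
    rw [hwsum]
    calc ∑ j, (2 - 2 * Real.cos (2 * Real.pi / L * (((k j).valMinAbs : ℤ) : ℝ)))
        ≤ ∑ _j : Fin 3, (4 : ℝ) := Finset.sum_le_sum fun j _ => by
          have := Real.neg_one_le_cos (2 * Real.pi / L * (((k j).valMinAbs : ℤ) : ℝ))
          linarith
      _ = 12 := by simp; norm_num
  obtain ⟨hE0, hcosh, hE3⟩ := energy_facts hw0 hw12 (show E = _ from rfl)
  have hlow : E ^ 2 ≤ w := by rw [← hcosh]; exact cosh_lower hE0.le
  have hup : w ≤ E ^ 2 + K1 * E ^ 4 := by rw [← hcosh]; exact cosh_upper hE0.le hE3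
  have hK := K1_pos
  have hupM : w ≤ M * E ^ 2 := by
    have h1 : E ^ 4 ≤ 9 * E ^ 2 := by
      have : E ^ 2 ≤ 9 := by nlinarith
      nlinarith [sq_nonneg E]
    nlinarith
  have hκM : κ2 ≤ Real.pi ^ 2 / 4 * M * E ^ 2 := by
    have h1 : κ2 = Real.pi ^ 2 / 4 * (4 / Real.pi ^ 2 * κ2) := by field_simp
    rw [h1]
    calc Real.pi ^ 2 / 4 * (4 / Real.pi ^ 2 * κ2) ≤ Real.pi ^ 2 / 4 * (M * E ^ 2) :=
          mul_le_mul_of_nonneg_left (hw_ge.trans hupM) (by positivity)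
      _ = Real.pi ^ 2 / 4 * M * E ^ 2 := by ring
  have hκ0 : 0 ≤ κ2 := by positivity
  refine ⟨hE0, ?_, hE3, hcosh, ?_, ?_, ?_⟩
  · -- the lower bound for the energy
    exact low_bound hLr hE0 hcosh hw16'
  · -- the quartic bound
    rw [abs_of_nonneg (sub_nonneg.mpr hlow), add_mul]
    have h1 : 0 ≤ (Real.pi ^ 2 / 4 * M) ^ 2 * E ^ 4 := by positivity
    linarith
  · -- the lower bound by the momentum
    have h1 : 16 * S ≤ w * L ^ 2 := by
      rw [div_le_iff₀ (by positivity)] at hw16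
      exact hw16
    have h2 : w * L ^ 2 ≤ M * E ^ 2 * L ^ 2 := by gcongr
    rw [div_mul_eq_mul_div, div_le_iff₀ hM0]
    calc 16 * S ≤ M * E ^ 2 * L ^ 2 := h1.trans h2
      _ = (E * L) ^ 2 * M := by ring
  · -- the comparison with the momentum
    set q : ℝ := 2 * Real.pi / L * Real.sqrt S with hq
    have hq0 : 0 ≤ q := by positivity
    have hq2 : q ^ 2 = κ2 := by
      rw [hq, mul_pow, Real.sq_sqrt (by linarith)]
    have h1 : |E ^ 2 - κ2| ≤ (K1 + (Real.pi ^ 2 / 4 * M) ^ 2) * E ^ 4 := by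
      have h3 : κ2 ^ 2 ≤ (Real.pi ^ 2 / 4 * M) ^ 2 * E ^ 4 := by
        calc κ2 ^ 2 ≤ (Real.pi ^ 2 / 4 * M * E ^ 2) ^ 2 := by gcongr
          _ = (Real.pi ^ 2 / 4 * M) ^ 2 * E ^ 4 := by ring
      have h4 : 0 ≤ K1 * E ^ 4 := by positivity
      have h5 : 0 ≤ (Real.pi ^ 2 / 4 * M) ^ 2 * E ^ 4 := by positivity
      rw [abs_le, add_mul]
      constructor
      · linarith
      · linarith
    have h2 : |E - q| * (E + q) = |E ^ 2 - κ2| := by
      rw [← hq2, show E ^ 2 - q ^ 2 = (E - q) * (E + q) by ring, abs_mul,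
        abs_of_pos (show 0 < E + q by linarith)]
    have h3 : |E - q| * E ≤ |E ^ 2 - κ2| := by
      rw [← h2]
      gcongr
      linarith
    have h4 : |E - q| * E ≤ ((K1 + (Real.pi ^ 2 / 4 * M) ^ 2) * E ^ 3) * E := by
      calc |E - q| * E ≤ (K1 + (Real.pi ^ 2 / 4 * M) ^ 2) * E ^ 4 := h3.trans h1
        _ = ((K1 + (Real.pi ^ 2 / 4 * M) ^ 2) * E ^ 3) * E := by ring
    exact le_of_mul_le_mul_right h4 hE0

end

end Pool.Agent.Y901.AF
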