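import Mathlib
import Pool.Agent.Y16.AF.StmB
import Pool.Agent.Y48.AF.GI

/-! Convergence of the sums of `S_GI`: the Dirichlet part, and tools for the Neumann part. -/

set_option autoImplicit false

namespace Pool.Agent.Y901.AF

open Pool.Agent.Y16.AF Pool.Agent.Y48.AF Filter Topology

/-! ### elementary limits -/

theorem tendsto_cast2 : Tendsto (fun L : ℕ => ((L + 2 : ℕ) : ℝ)) atTop atTop :=
  tendsto_natCast_atTop_atTop.comp (tendsto_add_atTop_nat 2)

/-- Scaling limit of a function at a zero. -/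
theorem tendsto_scale {f : ℝ → ℝ} {f' : ℝ} (hf : HasDerivAt f f' 0) (h0 : f 0 = 0)
    {p : ℕ → ℝ} {q : ℝ} (hp : Tendsto p atTop (𝓝 q)) :
    Tendsto (fun L : ℕ => ((L + 2 : ℕ) : ℝ) * f (p L / ((L + 2 : ℕ) : ℝ))) atTop (𝓝 (f' * q)) := by
  have h1 : Tendsto (fun L : ℕ => p L / ((L + 2 : ℕ) : ℝ)) atTop (𝓝 0) :=
    hp.div_atTop tendsto_cast2
  have h2 : ContinuousAt (dslope f 0) 0 := continuousAt_dslope_same.2 hf.differentiableAt
  have h3 : Tendsto (fun L : ℕ => dslope f 0 (p L / ((L + 2 : ℕ) : ℝ))) atTop (𝓝 f') := by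
    have h4 := h2.tendsto.comp h1
    rw [dslope_same, hf.deriv] at h4
    exact h4
  have h5 := h3.mul hp
  refine h5.congr fun L => ?_
  have hL : ((L + 2 : ℕ) : ℝ) ≠ 0 := by positivity
  have h6 := sub_smul_dslope f 0 (p L / ((L + 2 : ℕ) : ℝ))
  rw [h0, sub_zero, sub_zero, smul_eq_mul] at h6
  rw [← h6]
  field_simp

theorem tendsto_mu (j : ℕ) : Tendsto (fun L : ℕ => ((L + 2 : ℕ) : ℝ) ^ 2 * mu (L + 2) j) atTop
    (𝓝 (Real.pi ^ 2 * (j : ℝ) ^ 2)) := by
  have h1 := tendsto_scale (f := Real.sin) (f' := 1) (by simpa using Real.hasDerivAt_sin 0)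
    Real.sin_zero (p := fun _ => Real.pi * j / 2) tendsto_const_nhds
  have h2 := (h1.pow 2).const_mul 4
  have e : 4 * (1 * (Real.pi * j / 2)) ^ 2 = Real.pi ^ 2 * (j : ℝ) ^ 2 := by ring
  rw [e] at h2
  refine h2.congr fun L => ?_
  have e2 : Real.pi * (j : ℝ) / ((L + 2 : ℕ) : ℝ) = 2 * (Real.pi * j / 2 / ((L + 2 : ℕ) : ℝ)) := by
    ring
  unfold mu
  rw [e2, half_sq]
  ring

theorem cos_an {L : ℕ} [NeZero L] (x : ZMod L) :
    Real.cos (an x) = Real.cos (2 * (Real.pi * ((x.valMinAbs : ℤ) : ℝ) / L)) := by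
  have hL' : (0 : ℝ) < L := by exact_mod_cast Nat.pos_of_ne_zero (NeZero.ne L)
  obtain ⟨n, hn⟩ : ∃ n : ℤ, n = x.valMinAbs := ⟨_, rfl⟩
  rw [← hn]
  unfold an
  have h3 := ZMod.valMinAbs_def_pos x
  rw [← hn] at h3
  split_ifs at h3 with h4
  · rw [h3]
    congr 1
    push_cast
    ring
  · have h5 : (x.val : ℝ) = (n : ℝ) + L := by
      have : (x.val : ℤ) = n + L := by omega
      exact_mod_cast this
    rw [h5]
    have e : 2 * Real.pi * ((n : ℝ) + L) / L = 2 * (Real.pi * n / L) + 2 * Real.pi := by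
      field_simp
    rw [e, Real.cos_add_two_pi]

theorem be_eq {L : ℕ} [NeZero L] (x : ZMod L) :
    be x = 4 * Real.sin (Real.pi * ((x.valMinAbs : ℤ) : ℝ) / L) ^ 2 := by
  unfold be
  rw [cos_an, half_sq]

/-- Eventually an integer is its own representative. -/
theorem eventually_rep (m : ℤ) : ∀ᶠ L : ℕ in atTop, ((m : ZMod (L + 2))).valMinAbs = m := by
  filter_upwards [eventually_ge_atTop (2 * m.natAbs)] with L hL
  rw [ZMod.valMinAbs_spec]
  refine ⟨rfl, ?_, ?_⟩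
  · push_cast
    omega
  · push_cast
    omega

theorem tendsto_be (m : ℤ) : Tendsto (fun L : ℕ => ((L + 2 : ℕ) : ℝ) ^ 2 *
    be ((m : ZMod (L + 2)))) atTop (𝓝 (4 * Real.pi ^ 2 * (m : ℝ) ^ 2)) := by
  have h1 := tendsto_scale (f := Real.sin) (f' := 1) (by simpa using Real.hasDerivAt_sin 0)
    Real.sin_zero (p := fun _ => Real.pi * m) tendsto_const_nhds
  have h2 := (h1.pow 2).const_mul 4
  have e : 4 * (1 * (Real.pi * (m : ℝ))) ^ 2 = 4 * Real.pi ^ 2 * (m : ℝ) ^ 2 := by ring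
  rw [e] at h2
  refine h2.congr' ?_
  filter_upwards [eventually_rep m] with L hL
  rw [be_eq, hL]
  ring

/-! ### the sum over the first momentum -/

/-- Evaluation of the sum over the first momentum. -/
theorem Is_eq (hT : S_TRIG) {L : ℕ} [NeZero L] {j : ℕ} (hj : j < L) (y z : ZMod L)
    (h0 : ¬ (j = 0 ∧ y = 0 ∧ z = 0)) {A : ℝ} (hA : A = mu L j + be y + be z) :
    0 < A ∧ Is j y z = (L : ℝ) ^ 2 / (Real.cosh (L * (2 * Real.arsinh (√A / 2))) - 1) -
      if y = 0 ∧ z = 0 then 2 / A else 0 := by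
  have hL : 1 ≤ L := NeZero.one_le
  have hL' : (0 : ℝ) < L := by exact_mod_cast hL
  have hA0 : 0 < A := by
    have h1 := mu_ge hL hj.le
    have h2 := be_ge y
    have h3 := be_ge z
    have h4 : (1 : ℝ) ≤ (j : ℝ) ^ 2 + ((y.valMinAbs : ℤ) : ℝ) ^ 2 + ((z.valMinAbs : ℤ) : ℝ) ^ 2 := by
      have h1 : (1 : ℤ) ≤ (j : ℤ) ^ 2 + y.valMinAbs ^ 2 + z.valMinAbs ^ 2 := by
        by_contra hcon
        push Not at hcon
        apply h0
        have a1 := sq_nonneg (j : ℤ)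
        have a2 := sq_nonneg y.valMinAbs
        have a3 := sq_nonneg z.valMinAbs
        refine ⟨?_, ?_, ?_⟩
        · have : (j : ℤ) ^ 2 = 0 := by omega
          have := pow_eq_zero_iff (two_ne_zero) |>.1 this
          exact_mod_cast this
        · have : y.valMinAbs ^ 2 = 0 := by omega
          have := pow_eq_zero_iff (two_ne_zero) |>.1 this
          exact (ZMod.valMinAbs_eq_zero y).1 this
        · have : z.valMinAbs ^ 2 = 0 := by omega
          have := pow_eq_zero_iff (two_ne_zero) |>.1 this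
          exact (ZMod.valMinAbs_eq_zero z).1 this
      exact_mod_cast h1
    have h5 : 4 ≤ (L : ℝ) ^ 2 * A := by
      rw [hA]
      nlinarith [sq_nonneg ((y.valMinAbs : ℤ) : ℝ), sq_nonneg ((z.valMinAbs : ℤ) : ℝ)]
    by_contra hcon
    push Not at hcon
    nlinarith [sq_nonneg (L : ℝ)]
  refine ⟨hA0, ?_⟩
  have hη : 0 < 2 * Real.arsinh (√A / 2) := by
    have : 0 < Real.arsinh (√A / 2) := Real.arsinh_pos_iff.2 (by positivity)
    linarith
  have hηA : 2 * Real.cosh (2 * Real.arsinh (√A / 2)) - 2 = A := by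
    rw [Real.cosh_two_mul, Real.cosh_sq, Real.sinh_arsinh]
    have := Real.sq_sqrt hA0.le
    nlinarith
  have h1 := hT L hL A _ hA0 hη hηA
  have h2 : ∑ x : ZMod L, ph (an x) A =
      (L : ℝ) ^ 2 / (Real.cosh (L * (2 * Real.arsinh (√A / 2))) - 1) := by
    rw [← h1]
    exact zmod_sum (L := L) (fun m => ph (2 * Real.pi * m / L) A)
  by_cases hyz : y = 0 ∧ z = 0
  · rw [if_pos hyz]
    obtain ⟨rfl, rfl⟩ := hyz
    have hz : ph (an (0 : ZMod L)) A = 2 / A := by rw [an_zero, ph_zero]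
    unfold Is
    rw [← hA, ← hz, ← h2, eq_sub_iff_add_eq]
    have e2 : ∀ x : ZMod L, (if x = 0 ∧ (0 : ZMod L) = 0 ∧ (0 : ZMod L) = 0 then 0 else ph (an x) A) =
        ph (an x) A - if x = 0 then ph (an x) A else 0 := by
      intro x
      by_cases hx : x = 0
      · rw [if_pos ⟨hx, rfl, rfl⟩, if_pos hx, sub_self]
      · rw [if_neg (fun h => hx h.1), if_neg hx, sub_zero]
    rw [Finset.sum_congr rfl fun x _ => e2 x]
    rw [Finset.sum_sub_distrib, Finset.sum_ite_eq' Finset.univ (0 : ZMod L) (fun x => ph (an x) A),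
      if_pos (Finset.mem_univ _)]
    ring
  · rw [if_neg hyz, sub_zero, ← h2]
    unfold Is
    refine Finset.sum_congr rfl fun x _ => ?_
    rw [if_neg (fun h => hyz h.2), hA]

/-- The limit of the sum over the first momentum. -/
theorem tendsto_Is (hT : S_TRIG) (j : ℕ) (m n : ℤ) (h0 : ¬ (j = 0 ∧ m = 0 ∧ n = 0)) :
    ∃ x : ℝ, Tendsto (fun L : ℕ => Is (L := L + 2) j (m : ZMod (L + 2)) (n : ZMod (L + 2)) /
      ((L + 2 : ℕ) : ℝ) ^ 2) atTop (𝓝 x) := by
  obtain ⟨Q, hQ⟩ : ∃ Q : ℝ, Q = Real.pi ^ 2 * (j : ℝ) ^ 2 + 4 * Real.pi ^ 2 * (m : ℝ) ^ 2 +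
    4 * Real.pi ^ 2 * (n : ℝ) ^ 2 := ⟨_, rfl⟩
  have hpi := Real.pi_pos
  have hQ0 : 0 < Q := by
    have h4 : (1 : ℝ) ≤ (j : ℝ) ^ 2 + (m : ℝ) ^ 2 + (n : ℝ) ^ 2 := by
      have h1 : (1 : ℤ) ≤ (j : ℤ) ^ 2 + m ^ 2 + n ^ 2 := by
        by_contra hcon
        push Not at hcon
        apply h0
        have a1 := sq_nonneg (j : ℤ)
        have a2 := sq_nonneg m
        have a3 := sq_nonneg n
        refine ⟨?_, ?_, ?_⟩
        · have : (j : ℤ) ^ 2 = 0 := by omega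
          have := pow_eq_zero_iff (two_ne_zero) |>.1 this
          exact_mod_cast this
        · have : m ^ 2 = 0 := by omega
          exact pow_eq_zero_iff (two_ne_zero) |>.1 this
        · have : n ^ 2 = 0 := by omega
          exact pow_eq_zero_iff (two_ne_zero) |>.1 this
      exact_mod_cast h1
    have hp2 : 0 < Real.pi ^ 2 := by positivity
    rw [hQ]
    nlinarith [mul_nonneg hp2.le (sq_nonneg (m : ℝ)), mul_nonneg hp2.le (sq_nonneg (n : ℝ)),
      mul_le_mul_of_nonneg_left h4 hp2.le]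
  have hA : Tendsto (fun L : ℕ => ((L + 2 : ℕ) : ℝ) ^ 2 * (mu (L + 2) j + be (m : ZMod (L + 2)) +
      be (n : ZMod (L + 2)))) atTop (𝓝 Q) := by
    have h1 := ((tendsto_mu j).add (tendsto_be m)).add (tendsto_be n)
    rw [← hQ] at h1
    refine h1.congr fun L => ?_
    ring
  -- the energy
  have hη : Tendsto (fun L : ℕ => ((L + 2 : ℕ) : ℝ) * (2 * Real.arsinh
      (√(mu (L + 2) j + be (m : ZMod (L + 2)) + be (n : ZMod (L + 2))) / 2))) atTop (𝓝 (√Q)) := by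
    have h1 := tendsto_scale (f := Real.arsinh) (f' := 1) (by
      have := Real.hasDerivAt_arsinh 0
      simpa using this) Real.arsinh_zero (p := fun L : ℕ => √(((L + 2 : ℕ) : ℝ) ^ 2 *
        (mu (L + 2) j + be (m : ZMod (L + 2)) + be (n : ZMod (L + 2)))) / 2)
      ((Real.continuous_sqrt.continuousAt.tendsto.comp hA).div_const 2)
    have h2 := h1.const_mul 2
    have e : 2 * (1 * (√Q / 2)) = √Q := by ring
    rw [e] at h2
    refine h2.congr fun L => ?_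
    have hL : (0 : ℝ) < ((L + 2 : ℕ) : ℝ) := by positivity
    have e2 : √(((L + 2 : ℕ) : ℝ) ^ 2 * (mu (L + 2) j + be (m : ZMod (L + 2)) +
        be (n : ZMod (L + 2)))) / 2 / ((L + 2 : ℕ) : ℝ) =
        √(mu (L + 2) j + be (m : ZMod (L + 2)) + be (n : ZMod (L + 2))) / 2 := by
      rw [Real.sqrt_mul (by positivity), Real.sqrt_sq hL.le]
      field_simp
    rw [e2]
    ring
  have hcosh : Tendsto (fun L : ℕ => 1 / (Real.cosh (((L + 2 : ℕ) : ℝ) * (2 * Real.arsinh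
      (√(mu (L + 2) j + be (m : ZMod (L + 2)) + be (n : ZMod (L + 2))) / 2))) - 1)) atTop
      (𝓝 (1 / (Real.cosh (√Q) - 1))) := by
    have h1 := (Real.continuous_cosh.continuousAt.tendsto.comp hη).sub_const 1
    have h2 : Real.cosh (√Q) - 1 ≠ 0 := by
      have : 1 < Real.cosh (√Q) := Real.one_lt_cosh.2 (Real.sqrt_pos.2 hQ0).ne'
      linarith
    exact tendsto_const_nhds.div h1 h2
  have hsec : Tendsto (fun L : ℕ => (if m = 0 ∧ n = 0 then 2 / (((L + 2 : ℕ) : ℝ) ^ 2 *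
      (mu (L + 2) j + be (m : ZMod (L + 2)) + be (n : ZMod (L + 2)))) else 0)) atTop
      (𝓝 (if m = 0 ∧ n = 0 then 2 / Q else 0)) := by
    split_ifs
    · exact tendsto_const_nhds.div hA hQ0.ne'
    · exact tendsto_const_nhds
  refine ⟨_, (hcosh.sub hsec).congr' ?_⟩
  filter_upwards [eventually_rep m, eventually_rep n, eventually_ge_atTop j] with L hm hn hj
  have hm0 : (m : ZMod (L + 2)) = 0 ↔ m = 0 := by
    rw [← ZMod.valMinAbs_eq_zero, hm]
  have hn0 : (n : ZMod (L + 2)) = 0 ↔ n = 0 := by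
    rw [← ZMod.valMinAbs_eq_zero, hn]
  obtain ⟨hApos, hIs⟩ := Is_eq hT (L := L + 2) (j := j) (by omega) (m : ZMod (L + 2))
    (n : ZMod (L + 2)) (by rw [hm0, hn0]; exact h0) rfl
  rw [hIs]
  have hL : (0 : ℝ) < ((L + 2 : ℕ) : ℝ) := by positivity
  simp only [hm0, hn0]
  rw [sub_div]
  congr 1
  · rw [div_div, mul_comm (Real.cosh _ - 1), ← div_div, div_self (by positivity)]
  · split_ifs
    · rw [div_div, mul_comm]
    · rw [zero_div]

/-! ### dominated convergence -/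

/-- Representatives. -/
def okk (M : ℕ) (p : ℕ × ℤ × ℤ) : Prop :=
  p.1 < M ∧ ((p.2.1 : ZMod M)).valMinAbs = p.2.1 ∧ ((p.2.2 : ZMod M)).valMinAbs = p.2.2

open Classical in
/-- The summands. -/
noncomputable def F3 (b : ℕ → ℕ → ℝ) (L : ℕ) (p : ℕ × ℤ × ℤ) : ℝ :=
  if okk (L + 2) p then b L p.1 * (Is (L := L + 2) p.1 (p.2.1 : ZMod (L + 2))
    (p.2.2 : ZMod (L + 2)) / ((L + 2 : ℕ) : ℝ) ^ 2) else 0

theorem tsum_F3 (b : ℕ → ℕ → ℝ) (L : ℕ) : ∑' p, F3 b L p = ∑ j ∈ Finset.range (L + 2), b L j *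
    ∑ y : ZMod (L + 2), ∑ z : ZMod (L + 2), Is j y z / ((L + 2 : ℕ) : ℝ) ^ 2 := by
  obtain ⟨g, hg⟩ : ∃ g : Fin (L + 2) × ZMod (L + 2) × ZMod (L + 2) → ℕ × ℤ × ℤ,
    g = fun q => ((q.1 : ℕ), q.2.1.valMinAbs, q.2.2.valMinAbs) := ⟨_, rfl⟩
  have hinj : Function.Injective g := by
    rintro ⟨a, b, c⟩ ⟨a', b', c'⟩ h
    rw [hg] at h
    simp only [Prod.mk.injEq] at h
    obtain ⟨h1, h2, h3⟩ := h
    rw [Fin.ext h1, ZMod.injective_valMinAbs h2, ZMod.injective_valMinAbs h3]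
  have hsup : Function.support (F3 b L) ⊆ Set.range g := by
    intro p hp
    have hok : okk (L + 2) p := by
      by_contra hcon
      apply hp
      unfold F3
      rw [if_neg hcon]
    refine ⟨(⟨p.1, hok.1⟩, (p.2.1 : ZMod (L + 2)), (p.2.2 : ZMod (L + 2))), ?_⟩
    rw [hg]
    simp only
    rw [hok.2.1, hok.2.2]
  rw [← hinj.tsum_eq hsup, tsum_fintype, Fintype.sum_prod_type, Finset.sum_range]
  refine Finset.sum_congr rfl fun j _ => ?_
  rw [Fintype.sum_prod_type, Finset.mul_sum]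
  refine Finset.sum_congr rfl fun y _ => ?_
  rw [Finset.mul_sum]
  refine Finset.sum_congr rfl fun z _ => ?_
  rw [hg]
  unfold F3 okk
  simp only [ZMod.coe_valMinAbs]
  rw [if_pos ⟨j.2, trivial, trivial⟩]

/-- Dominated convergence. -/
theorem conv (hT : S_TRIG) (b : ℕ → ℕ → ℝ) (K : ℝ) (hb : ∀ L j, |b L j| ≤ K)
    (hlim : ∀ (j : ℕ) (m n : ℤ), ∃ x : ℝ, Tendsto (fun L : ℕ => b L j * (Is (L := L + 2) j
      (m : ZMod (L + 2)) (n : ZMod (L + 2)) / ((L + 2 : ℕ) : ℝ) ^ 2)) atTop (𝓝 x)) :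
    ∃ x : ℝ, Tendsto (fun L : ℕ => ∑ j ∈ Finset.range (L + 2), b L j *
      ∑ y : ZMod (L + 2), ∑ z : ZMod (L + 2), Is j y z / ((L + 2 : ℕ) : ℝ) ^ 2) atTop (𝓝 x) := by
  have hK0 : 0 ≤ K := (abs_nonneg _).trans (hb 0 0)
  have hKK := one_le_KK
  choose β hβ using fun p : ℕ × ℤ × ℤ => hlim p.1 p.2.1 p.2.2
  refine ⟨∑' p, β p, ?_⟩
  simp only [← tsum_F3]
  refine tendsto_tsum_of_dominated_convergence
    (bound := fun p : ℕ × ℤ × ℤ => K * (1177 + KK) * (wt p.1 * (wt p.2.1 * wt p.2.2))) ?_ ?_ ?_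
  · refine Summable.mul_left _ ?_
    have h1 : Summable fun j : ℕ => wt (j : ℤ) := wt_summable.comp_injective Nat.cast_injective
    have h2 : Summable fun p : ℤ × ℤ => wt p.1 * wt p.2 :=
      wt_summable.mul_of_nonneg wt_summable (fun n => (wt_pos n).le) (fun n => (wt_pos n).le)
    exact h1.mul_of_nonneg h2 (fun n => (wt_pos _).le)
      (fun p => mul_nonneg (wt_pos _).le (wt_pos _).le)
  · intro p
    refine (hβ p).congr' ?_
    filter_upwards [eventually_rep p.2.1, eventually_rep p.2.2, eventually_ge_atTop p.1]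
      with L h1 h2 h3
    have hok : okk (L + 2) p := ⟨by omega, h1, h2⟩
    unfold F3
    rw [if_pos hok]
  · refine Eventually.of_forall fun L p => ?_
    have hw : 0 ≤ wt p.1 * (wt p.2.1 * wt p.2.2) :=
      mul_nonneg (wt_pos _).le (mul_nonneg (wt_pos _).le (wt_pos _).le)
    unfold F3
    split_ifs with hok
    · obtain ⟨h1, h2, h3⟩ := hok
      have hL : (0 : ℝ) < ((L + 2 : ℕ) : ℝ) ^ 2 := by positivity
      have h4 := Is_bound hT (L := L + 2) h1 (p.2.1 : ZMod (L + 2)) (p.2.2 : ZMod (L + 2))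
      rw [h2, h3] at h4
      have h5 : |Is (L := L + 2) p.1 (p.2.1 : ZMod (L + 2)) (p.2.2 : ZMod (L + 2)) /
          ((L + 2 : ℕ) : ℝ) ^ 2| ≤ (1177 + KK) * (wt p.1 * (wt p.2.1 * wt p.2.2)) := by
        rw [abs_div, abs_of_pos hL, div_le_iff₀ hL]
        refine h4.trans (le_of_eq ?_)
        ring
      rw [Real.norm_eq_abs, abs_mul]
      calc |b L p.1| * |Is (L := L + 2) p.1 (p.2.1 : ZMod (L + 2)) (p.2.2 : ZMod (L + 2)) /
          ((L + 2 : ℕ) : ℝ) ^ 2| ≤ K * ((1177 + KK) * (wt p.1 * (wt p.2.1 * wt p.2.2))) :=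
            mul_le_mul (hb L p.1) h5 (abs_nonneg _) hK0
        _ = K * (1177 + KK) * (wt p.1 * (wt p.2.1 * wt p.2.2)) := by ring
    · rw [norm_zero]
      have : 0 ≤ K * (1177 + KK) := mul_nonneg hK0 (by linarith)
      positivity

/-! ### Riemann sums -/

theorem riemann {f : ℝ → ℝ} (hf : Continuous f) : Tendsto (fun L : ℕ =>
    (∑ t ∈ Finset.range (L + 2), f ((t : ℝ) / ((L + 2 : ℕ) : ℝ))) / ((L + 2 : ℕ) : ℝ)) atTop
    (𝓝 (∫ x in (0 : ℝ)..1, f x)) := by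
  rw [Metric.tendsto_atTop]
  intro ε hε
  have hu := (isCompact_Icc (a := (0 : ℝ)) (b := 1)).uniformContinuousOn_of_continuous
    hf.continuousOn
  rw [Metric.uniformContinuousOn_iff] at hu
  obtain ⟨δ, hδ, hu⟩ := hu (ε / 2) (by positivity)
  obtain ⟨N, hN⟩ := exists_nat_gt (1 / δ)
  refine ⟨N, fun L hL => ?_⟩
  obtain ⟨M, hM⟩ : ∃ M : ℕ, M = L + 2 := ⟨_, rfl⟩
  rw [← hM]
  have hM0 : (0 : ℝ) < M := by rw [hM]; positivity
  have hMδ : 1 / (M : ℝ) < δ := by
    rw [one_div_lt hM0 hδ]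
    refine hN.trans_le ?_
    have : N ≤ M := by omega
    exact_mod_cast this
  have hint : ∀ a b : ℝ, IntervalIntegrable f MeasureTheory.volume a b :=
    fun a b => hf.intervalIntegrable a b
  have h1 : ∑ t ∈ Finset.range M, ∫ x in ((t : ℝ) / M)..(((t + 1 : ℕ) : ℝ) / M), f x =
      ∫ x in (0 : ℝ)..1, f x := by
    have h2 := intervalIntegral.sum_integral_adjacent_intervals (f := f)
      (μ := MeasureTheory.volume) (a := fun t : ℕ => (t : ℝ) / M) (n := M)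
      (fun k _ => hint _ _)
    rw [h2]
    congr 1
    · simp
    · exact div_self hM0.ne'
  have h2 : (∑ t ∈ Finset.range M, f ((t : ℝ) / M)) / M - ∫ x in (0 : ℝ)..1, f x =
      ∑ t ∈ Finset.range M, ∫ x in ((t : ℝ) / M)..(((t + 1 : ℕ) : ℝ) / M), (f ((t : ℝ) / M) - f x) := by
    rw [← h1, Finset.sum_div, ← Finset.sum_sub_distrib]
    refine Finset.sum_congr rfl fun t _ => ?_
    rw [intervalIntegral.integral_sub (intervalIntegrable_const) (hint _ _),
      intervalIntegral.integral_const, smul_eq_mul]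
    congr 1
    push_cast
    ring
  rw [Real.dist_eq, h2]
  have h3 : ∀ t ∈ Finset.range M,
      |∫ x in ((t : ℝ) / M)..(((t + 1 : ℕ) : ℝ) / M), (f ((t : ℝ) / M) - f x)| ≤ ε / 2 * (1 / M) := by
    intro t ht
    have htM : (t : ℝ) + 1 ≤ M := by
      have := Finset.mem_range.1 ht
      have : t + 1 ≤ M := this
      exact_mod_cast this
    have e1 : ((t + 1 : ℕ) : ℝ) / M = (t : ℝ) / M + 1 / M := by
      push_cast
      ring
    have h0 : 0 ≤ (t : ℝ) / M := by positivity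
    have h4 : (t : ℝ) / M + 1 / M ≤ 1 := by
      rw [← add_div, div_le_one hM0]
      exact htM
    have h5 : 0 < 1 / (M : ℝ) := by positivity
    have h6 := intervalIntegral.norm_integral_le_of_norm_le_const (a := (t : ℝ) / M)
      (b := ((t + 1 : ℕ) : ℝ) / M) (C := ε / 2) (f := fun x => f ((t : ℝ) / M) - f x) (by
        intro x hx
        rw [e1, Set.uIoc_of_le (by linarith)] at hx
        have h7 := hu ((t : ℝ) / M) ⟨h0, by linarith⟩ x ⟨by linarith [hx.1], by linarith [hx.2]⟩ (by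
          rw [Real.dist_eq, abs_sub_comm, abs_of_nonneg (by linarith [hx.1])]
          linarith [hx.2])
        rw [Real.dist_eq] at h7
        exact h7.le)
    rw [e1, add_sub_cancel_left, abs_of_pos h5] at h6
    rw [e1]
    exact h6
  calc |∑ t ∈ Finset.range M, ∫ x in ((t : ℝ) / M)..(((t + 1 : ℕ) : ℝ) / M),
        (f ((t : ℝ) / M) - f x)|
      ≤ ∑ t ∈ Finset.range M, ε / 2 * (1 / M) :=
        (Finset.abs_sum_le_sum_abs _ _).trans (Finset.sum_le_sum h3)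
    _ = ε / 2 := by
        rw [Finset.sum_const, Finset.card_range, nsmul_eq_mul]
        field_simp
    _ < ε := by linarith

/-! ### reduction to the sum over the first momentum -/

theorem total_eq {L : ℕ} [NeZero L] (v : ℕ → ℝ) :
    ∑ k ∈ nz L, ∑ j ∈ Finset.range L, v j * ph (an (k 0)) (mu L j + be (k 1) + be (k 2)) =
      ∑ j ∈ Finset.range L, v j * ∑ y : ZMod L, ∑ z : ZMod L, Is j y z := by
  classical
  unfold nz
  rw [Finset.sum_filter, ← (e3 L).sum_comp, Fintype.sum_prod_type]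
  simp only [Fintype.sum_prod_type]
  have e2 : ∀ x y z : ZMod L, (if (e3 L (x, y, z)) ≠ 0 then ∑ j ∈ Finset.range L,
      v j * ph (an (e3 L (x, y, z) 0)) (mu L j + be (e3 L (x, y, z) 1) + be (e3 L (x, y, z) 2)) else 0) =
      ∑ j ∈ Finset.range L, v j * (if x = 0 ∧ y = 0 ∧ z = 0 then 0 else
        ph (an x) (mu L j + be y + be z)) := by
    intro x y z
    have e3' : e3 L (x, y, z) = 0 ↔ x = 0 ∧ y = 0 ∧ z = 0 := by
      constructor
      · intro h
        exact ⟨congrFun h 0, congrFun h 1, congrFun h 2⟩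
      · rintro ⟨rfl, rfl, rfl⟩
        funext i
        fin_cases i <;> rfl
    by_cases h : x = 0 ∧ y = 0 ∧ z = 0
    · rw [if_neg (fun h' => h' (e3'.2 h))]
      simp only [if_pos h, mul_zero, Finset.sum_const_zero]
    · rw [if_pos (fun h' => h (e3'.1 h'))]
      simp only [if_neg h]
      rfl
  simp only [e2]
  simp only [Is, Finset.mul_sum]
  rw [Finset.sum_comm]
  have : ∀ y : ZMod L, ∑ x : ZMod L, ∑ z : ZMod L, ∑ j ∈ Finset.range L, v j *
      (if x = 0 ∧ y = 0 ∧ z = 0 then 0 else ph (an x) (mu L j + be y + be z)) =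
      ∑ j ∈ Finset.range L, ∑ z : ZMod L, ∑ x : ZMod L, v j *
      (if x = 0 ∧ y = 0 ∧ z = 0 then 0 else ph (an x) (mu L j + be y + be z)) := by
    intro y
    rw [Finset.sum_comm]
    simp only [Finset.sum_comm (s := (Finset.univ : Finset (ZMod L))) (t := Finset.range L)]
  simp only [this]
  rw [Finset.sum_comm]

theorem key_eq {L : ℕ} [NeZero L] (v : ℕ → ℝ) (g1 g2 : Sp L → ℝ)
    (h1 : ∀ k : Sp L, k ≠ 0 → g1 k = ∑ j ∈ Finset.range L, v j / (mu L j + wh2 k))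
    (h2 : ∀ k : Sp L, k ≠ 0 → g2 k = ∑ j ∈ Finset.range L, v j / (mu L j + wh2 k) ^ 2) :
    ∑ k ∈ nz L, (2 * Real.cos (ang k 0) * g1 k - 4 * Real.sin (ang k 0) ^ 2 * g2 k) =
      ∑ j ∈ Finset.range L, v j * ∑ y : ZMod L, ∑ z : ZMod L, Is j y z := by
  rw [← total_eq]
  have hwh : ∀ k : Sp L, wh2 k = be (k 0) + be (k 1) + be (k 2) := by
    intro k
    unfold wh2
    rw [Fin.sum_univ_three]
    rfl
  have hden : ∀ (k : Sp L) (j : ℕ), mu L j + wh2 k = mu L j + be (k 1) + be (k 2) + 2 -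
      2 * Real.cos (an (k 0)) := by
    intro k j
    rw [hwh]
    have : be (k 0) = 2 - 2 * Real.cos (an (k 0)) := rfl
    rw [this]
    ring
  refine Finset.sum_congr rfl fun k hk => ?_
  have hk' : k ≠ 0 := (Finset.mem_filter.1 hk).2
  rw [h1 k hk', h2 k hk', Finset.mul_sum, Finset.mul_sum, ← Finset.sum_sub_distrib]
  refine Finset.sum_congr rfl fun j _ => ?_
  rw [hden k j]
  have : ang k 0 = an (k 0) := rfl
  rw [this]
  unfold ph
  ring

/-- Interchange of the sums. -/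
theorem swap_eq (L : ℕ) (u : ℕ → ℝ) (v : ℕ → ℕ → ℝ) :
    (∑ t ∈ Finset.range (L + 2), u t * ∑ j ∈ Finset.range (L + 2), v t j *
      ∑ y : ZMod (L + 2), ∑ z : ZMod (L + 2), Is j y z) / ((L + 2 : ℕ) : ℝ) ^ 4 =
    ∑ j ∈ Finset.range (L + 2), ((∑ t ∈ Finset.range (L + 2), u t * v t j) / ((L + 2 : ℕ) : ℝ) ^ 2) *
      ∑ y : ZMod (L + 2), ∑ z : ZMod (L + 2), Is j y z / ((L + 2 : ℕ) : ℝ) ^ 2 := by
  have hL : ((L + 2 : ℕ) : ℝ) ≠ 0 := by positivity
  simp only [Finset.mul_sum (s := Finset.range (L + 2))]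
  rw [Finset.sum_comm, Finset.sum_div]
  refine Finset.sum_congr rfl fun j _ => ?_
  simp only [← Finset.sum_div]
  simp only [← mul_assoc]
  rw [← Finset.sum_mul]
  field_simp

/-! ### the Dirichlet part -/

/-- The weights of the Dirichlet part. -/
noncomputable def bD (L j : ℕ) : ℝ := (∑ t ∈ Finset.range (L + 2), (t : ℝ) ^ 2 *
  (2 / ((L + 2 : ℕ) : ℝ) * Real.sin (Real.pi * j * t / ((L + 2 : ℕ) : ℝ)) ^ 2)) /
    ((L + 2 : ℕ) : ℝ) ^ 2

theorem bD_bound (L j : ℕ) : |bD L j| ≤ 2 := by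
  unfold bD
  obtain ⟨M, hM⟩ : ∃ M : ℕ, M = L + 2 := ⟨_, rfl⟩
  rw [← hM]
  have hM0 : (0 : ℝ) < M := by rw [hM]; positivity
  rw [abs_of_nonneg (by positivity), div_le_iff₀ (by positivity)]
  calc ∑ t ∈ Finset.range M, (t : ℝ) ^ 2 * (2 / (M : ℝ) * Real.sin (Real.pi * j * t / M) ^ 2)
      ≤ ∑ t ∈ Finset.range M, (M : ℝ) ^ 2 * (2 / M * 1) := by
        refine Finset.sum_le_sum fun t ht => ?_
        have h1 : (t : ℝ) ≤ M := by exact_mod_cast (Finset.mem_range.1 ht).le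
        have h2 : Real.sin (Real.pi * j * t / M) ^ 2 ≤ 1 := Real.sin_sq_le_one _
        gcongr
    _ = 2 * (M : ℝ) ^ 2 := by
        rw [Finset.sum_const, Finset.card_range, nsmul_eq_mul]
        field_simp

theorem bD_lim (j : ℕ) : ∃ x : ℝ, Tendsto (fun L : ℕ => bD L j) atTop (𝓝 x) := by
  refine ⟨_, (riemann (f := fun x => 2 * x ^ 2 * Real.sin (Real.pi * j * x) ^ 2)
    (by fun_prop)).congr fun L => ?_⟩
  unfold bD
  rw [Finset.sum_div, Finset.sum_div]
  refine Finset.sum_congr rfl fun t _ => ?_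
  have hL : ((L + 2 : ℕ) : ℝ) ≠ 0 := by positivity
  rw [mul_div_assoc' (Real.pi * (j : ℝ))]
  field_simp

theorem bD_zero (L : ℕ) : bD L 0 = 0 := by
  unfold bD
  simp

/-- The Dirichlet part. -/
theorem af_l4d : S_L4D := by
  intro hT hS hE
  obtain ⟨c, C, -, -, hEN⟩ := hE
  obtain ⟨x, hx⟩ := conv hT bD 2 bD_bound (by
    intro j m n
    by_cases hj : j = 0
    · refine ⟨0, ?_⟩
      subst hj
      simp only [bD_zero, zero_mul]
      exact tendsto_const_nhds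
    · obtain ⟨a, ha⟩ := bD_lim j
      obtain ⟨b, hb⟩ := tendsto_Is hT j m n (fun h => hj h.1)
      exact ⟨a * b, ha.mul hb⟩)
  refine ⟨x, hx.congr fun L => ?_⟩
  have hED : ∀ t ∈ Finset.range (L + 2), (t : ℝ) ^ 2 * ED (L + 2) t = (t : ℝ) ^ 2 *
      ∑ j ∈ Finset.range (L + 2), (2 / ((L + 2 : ℕ) : ℝ) *
        Real.sin (Real.pi * j * t / ((L + 2 : ℕ) : ℝ)) ^ 2) *
        ∑ y : ZMod (L + 2), ∑ z : ZMod (L + 2), Is j y z := by
    intro t ht
    congr 1
    have ht' : t < L + 2 := Finset.mem_range.1 ht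
    refine key_eq (L := L + 2) _ _ _ ?_ ?_
    · intro k hk
      obtain ⟨h1, -, -, h2, -⟩ := hEN (L + 2) (by omega) k hk
      rw [(hS (L + 2) (by omega) (en k) h1).1 t ht', h2]
      rfl
    · intro k hk
      obtain ⟨h1, -, -, h2, -⟩ := hEN (L + 2) (by omega) k hk
      rw [(hS (L + 2) (by omega) (en k) h1).2.1 t ht', h2]
      rfl
  rw [Finset.sum_congr rfl hED, swap_eq L (fun t => (t : ℝ) ^ 2) (fun t j =>
    2 / ((L + 2 : ℕ) : ℝ) * Real.sin (Real.pi * j * t / ((L + 2 : ℕ) : ℝ)) ^ 2)]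
  rfl

end Pool.Agent.Y901.AF
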